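import Pool.Agent.W98.OS.Defs

/-!
A row passes an exchanged pair of columns.
-/

set_option autoImplicit false

namespace Pool.Agent.W351.OS

open Pool.Agent.W98.OS

variable {R : Type*} [CommRing R]

theorem row_add (x : R) (ys : List R) : ∀ (h : Bool) (vs : List Bool) (F G : List Bool → R),
    row x h ys vs (fun w => F w + G w) = row x h ys vs F + row x h ys vs G := by
  induction ys with
  | nil => intro h vs F G; cases vs <;> cases h <;> simp [row]
  | cons y ys ih =>
    intro h vs F G
    cases vs with
    | nil => simp [row]
    | cons s vs =>
      cases h <;> cases s <;> simp only [row, ih] <;> ring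

theorem row_mul (x : R) (ys : List R) : ∀ (h : Bool) (vs : List Bool) (k : R) (F : List Bool → R),
    row x h ys vs (fun w => k * F w) = k * row x h ys vs F := by
  induction ys with
  | nil => intro h vs k F; cases vs <;> cases h <;> simp [row]
  | cons y ys ih =>
    intro h vs k F
    cases vs with
    | nil => simp [row]
    | cons s vs =>
      cases h <;> cases s <;> simp only [row, ih] <;> ring

theorem opAt_add (a b : R) (n : ℕ) : ∀ (v : List Bool) (F G : List Bool → R),
    opAt a b n (fun w => F w + G w) v = opAt a b n F v + opAt a b n G v := by
  induction n with
  | zero =>
    intro v F G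
    match v with
    | [] => simp [opAt]
    | [_] => simp [opAt]
    | s :: t :: u => cases s <;> cases t <;> simp only [opAt, opR] <;> ring
  | succ n ih =>
    intro v F G
    cases v with
    | nil => simp [opAt]
    | cons s u => simp only [opAt, ih]

theorem opAt_mul (a b : R) (n : ℕ) : ∀ (v : List Bool) (k : R) (F : List Bool → R),
    opAt a b n (fun w => k * F w) v = k * opAt a b n F v := by
  induction n with
  | zero =>
    intro v k F
    match v with
    | [] => simp [opAt]
    | [_] => simp [opAt]
    | s :: t :: u => cases s <;> cases t <;> simp only [opAt, opR] <;> ring
  | succ n ih =>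
    intro v k F
    cases v with
    | nil => simp [opAt]
    | cons s u => simp only [opAt, ih]

theorem T_COL : S_COL := by
  intro R _ x a b h l₁ l₂ F v hv
  induction l₁ generalizing h v F with
  | nil =>
    match v, hv with
    | [], hv => simp at hv; omega
    | [_], hv => simp at hv; omega
    | s :: t :: u, hv =>
      cases h <;> cases s <;> cases t <;>
        simp only [List.length_nil, List.nil_append, row, opAt, opR, row_add, row_mul, kap] <;> ring
  | cons y l ih =>
    match v, hv with
    | [], hv => simp at hv; omega
    | s :: u, hv =>
      have hu : u.length = l.length + 2 + l₂.length := by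
        simp only [List.length_cons] at hv
        omega
      cases h <;> cases s <;>
        simp only [List.length_cons, List.cons_append, row, opAt, opAt_add, opAt_mul] <;>
        simp only [ih _ _ _ hu]

end Pool.Agent.W351.OS
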