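import Pool.Agent.W98.OS.Defs

/-!
Degrees in the first parameter and the value at one half.
-/

set_option autoImplicit false

namespace Pool.Agent.W351.OS

open Pool.Agent.W98.OS

theorem zs_succ (n : ℕ) : zs (n + 1) = false :: zs n := rfl

theorem row_true {R : Type*} [CommRing R] (x : R) (ys : List R) : ∀ (F : List Bool → R),
    row x true ys (zs ys.length) F = (ys.map fun y => 1 - x * y).prod * F (zs ys.length) := by
  induction ys with
  | nil => intro F; simp [row, zs]
  | cons y ys ih =>
    intro F
    rw [List.length_cons, zs_succ]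
    simp only [row]
    rw [ih, List.map_cons, List.prod_cons]
    ring

theorem prod_deg {K : Type*} [Field K] (ys : List K) :
    ((ys.map fun y => (1 - Polynomial.C y * Polynomial.X : Polynomial K)).prod).natDegree ≤
      ys.length := by
  induction ys with
  | nil => simp
  | cons y ys ih =>
    rw [List.map_cons, List.prod_cons, List.length_cons, Nat.add_comm]
    apply Polynomial.natDegree_mul_le_of_le _ ih
    compute_degree

theorem prod_eval {K : Type*} [Field K] (ys : List K) (X : K) :
    ((ys.map fun y => (1 - Polynomial.C y * Polynomial.X : Polynomial K)).prod).eval X =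
      (ys.map fun y => 1 - X * y).prod := by
  induction ys with
  | nil => simp
  | cons y ys ih =>
    rw [List.map_cons, List.prod_cons, List.map_cons, List.prod_cons, Polynomial.eval_mul, ih]
    congr 1
    simp
    ring

theorem row_false_poly {K : Type*} [Field K] (ys : List K) : ∀ (F : List Bool → K),
    ∃ p : Polynomial K, p.degree < (ys.length : ℕ) ∧
      ∀ X, row X false ys (zs ys.length) F = p.eval X := by
  induction ys with
  | nil =>
    intro F
    refine ⟨0, ?_, ?_⟩
    · rw [Polynomial.degree_zero]
      exact WithBot.bot_lt_coe _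
    · intro X
      simp [row, zs]
  | cons y ys ih =>
    intro F
    obtain ⟨p, hp1, hp2⟩ := ih (fun u => F (false :: u))
    refine ⟨(1 - Polynomial.X - Polynomial.C y) * p +
      (ys.map fun y => (1 - Polynomial.C y * Polynomial.X : Polynomial K)).prod *
        Polynomial.C (F (true :: zs ys.length)), ?_, ?_⟩
    · rw [Polynomial.degree_lt_iff_coeff_zero] at hp1 ⊢
      intro m hm
      rw [List.length_cons] at hm
      obtain ⟨m', rfl⟩ : ∃ m', m = m' + 1 := ⟨m - 1, by omega⟩
      rw [Polynomial.coeff_add, sub_mul, sub_mul, one_mul, Polynomial.coeff_sub,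
        Polynomial.coeff_sub, Polynomial.coeff_X_mul, Polynomial.coeff_C_mul,
        Polynomial.coeff_mul_C, hp1 (m' + 1) (by omega), hp1 m' (by omega),
        Polynomial.coeff_eq_zero_of_natDegree_lt (lt_of_le_of_lt (prod_deg ys) (by omega))]
      ring
    · intro X
      rw [List.length_cons, zs_succ]
      simp only [row]
      rw [hp2 X, row_true, Polynomial.eval_add, Polynomial.eval_mul, Polynomial.eval_mul,
        prod_eval]
      simp

theorem Z0_cons {R : Type*} [CommRing R] (x : R) (xs : List R) :
    Z0 (x :: xs) = row x false xs (zs xs.length) (Ef xs) := by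
  have h1 : Z0 (x :: xs) = 1 * row x false xs (zs xs.length) (Zf (fun _ => 1) 0 xs) +
      0 * row x true xs (zs xs.length) (Zf (fun _ => 1) 0 xs) := by
    unfold Z0 Ef
    rw [List.length_cons, zs_succ]
    simp only [Zf]
  rw [h1, one_mul, zero_mul, add_zero]
  rfl

theorem W0_cons {R : Type*} [CommRing R] (x : R) (xs : List R) :
    W0 (x :: xs) = (1 - 2 * x) * row x false xs (zs xs.length) (Wf xs) +
      (xs.map fun y => 1 - 2 * y).prod *
        ((xs.map fun y => 1 - x * y).prod * Ef xs (zs xs.length)) := by
  unfold W0
  rw [List.length_cons, zs_succ]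
  simp only [Wf]
  rw [row_true]

theorem T_DEG : S_DEG := by
  intro K _ xs
  constructor
  · obtain ⟨p, h1, h2⟩ := row_false_poly xs (Ef xs)
    refine ⟨p, h1, ?_⟩
    intro X
    rw [Z0_cons, h2]
  · obtain ⟨p, h1, h2⟩ := row_false_poly xs (Wf xs)
    refine ⟨(1 - 2 * Polynomial.X) * p + Polynomial.C (xs.map fun y => 1 - 2 * y).prod *
      ((xs.map fun y => (1 - Polynomial.C y * Polynomial.X : Polynomial K)).prod *
        Polynomial.C (Ef xs (zs xs.length))), ?_, ?_⟩
    · rw [Polynomial.degree_lt_iff_coeff_zero] at h1 ⊢
      intro m hm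
      obtain ⟨m', rfl⟩ : ∃ m', m = m' + 1 := ⟨m - 1, by omega⟩
      have e1 : (1 - 2 * Polynomial.X) * p = p - Polynomial.X * (Polynomial.C 2 * p) := by
        rw [map_ofNat]
        ring
      rw [Polynomial.coeff_add, e1, Polynomial.coeff_sub, Polynomial.coeff_X_mul,
        Polynomial.coeff_C_mul, Polynomial.coeff_C_mul,
        Polynomial.coeff_mul_C, h1 (m' + 1) (by omega), h1 m' (by omega),
        Polynomial.coeff_eq_zero_of_natDegree_lt (lt_of_le_of_lt (prod_deg xs) (by omega))]
      ring
    · intro X
      rw [W0_cons, h2, Polynomial.eval_add, Polynomial.eval_mul, Polynomial.eval_mul,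
        Polynomial.eval_mul, prod_eval]
      simp

theorem T_HALF : S_HALF := by
  intro R _ x l hx
  rw [W0_cons, hx, List.prod_map_mul]
  unfold Z0
  ring

end Pool.Agent.W351.OS
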