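import Pool.Agent.W98.OS.Defs

/-!
Removing one point from the products over pairs.
-/

set_option autoImplicit false

namespace Pool.Agent.W351.OS

open Pool.Agent.W98.OS

theorem PP_succ {K : Type*} [CommRing K] (D : K → K → K) {n : ℕ} (x : Fin (n + 1) → K) :
    PP D x = (∏ j : Fin n, D (x 0) (x j.succ)) * PP D (fun j => x j.succ) := by
  unfold PP
  rw [Fin.prod_univ_succ, Fin.prod_Ioi_zero]
  congr 1
  apply Finset.prod_congr rfl
  intro i _
  rw [Fin.prod_Ioi_succ]

theorem PP_rem {K : Type*} [CommRing K] (D : K → K → K) (s : K) (hD : ∀ a b, D a b = s * D b a)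
    (n : ℕ) : ∀ (x : Fin (n + 1) → K) (k : Fin (n + 1)),
      PP D x = s ^ (k : ℕ) * (∏ j : Fin n, D (x k) (x (k.succAbove j))) *
        PP D (fun j => x (k.succAbove j)) := by
  induction n with
  | zero =>
    intro x k
    have hk : k = 0 := by
      apply Fin.ext
      have := k.isLt
      simp only [Fin.val_zero]
      omega
    subst hk
    rw [PP_succ]
    simp
  | succ n ih =>
    intro x k
    induction k using Fin.cases with
    | zero =>
      rw [PP_succ]
      simp
    | succ k =>
      rw [PP_succ D x, ih (fun j => x j.succ) k, PP_succ D (fun j => x (k.succ.succAbove j)),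
        Fin.prod_univ_succAbove _ k, Fin.prod_univ_succ (fun j => D (x k.succ) _)]
      simp only [Fin.succ_succAbove_zero, Fin.succ_succAbove_succ, Fin.val_succ]
      rw [hD (x 0) (x k.succ), pow_succ]
      ring

theorem T_REM : S_REM := by
  intro K _ n x k
  constructor
  · have h1 := PP_rem (fun a b : K => b - a) (-1) (by intro a b; ring) n x k
    exact h1
  · intro D hD
    have h1 := PP_rem D 1 (by intro a b; rw [one_mul]; exact hD a b) n x k
    rw [h1, one_pow, one_mul]

end Pool.Agent.W351.OS
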